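import Mathlib

/-!
Dirac's lemma: a chordal graph has a simplicial vertex in every nonempty finite vertex set
(adapted from the team file for problem 80f86c), and perfect elimination orderings.
-/

namespace Pool.Agent.Lib.Chordal

open SimpleGraph

/-- No induced cycle of length at least four. -/
def NoHole {W : Type*} (H : SimpleGraph W) : Prop :=
  ∀ n : ℕ, 4 ≤ n → ¬ (cycleGraph n ⊴ H)

/-- Every nonempty finite vertex set has a simplicial vertex. -/
def Simplicial {W : Type*} (H : SimpleGraph W) : Prop :=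
  ∀ S : Finset W, S.Nonempty → ∃ v ∈ S, ∀ x ∈ S, ∀ y ∈ S, H.Adj v x → H.Adj v y → x ≠ y →
    H.Adj x y

lemma cycleGraph_adj_iff {L : ℕ} (hL : 3 ≤ L) (i j : Fin L) :
    (cycleGraph L).Adj i j ↔ (i.val + 1 = j.val ∨ j.val + 1 = i.val ∨
      (i.val = 0 ∧ j.val + 1 = L) ∨ (j.val = 0 ∧ i.val + 1 = L)) := by
  rw [cycleGraph_adj']
  have hi := i.isLt
  have hj := j.isLt
  rcases lt_trichotomy i j with h | h | h
  · rw [Fin.coe_sub_iff_lt.2 h, Fin.coe_sub_iff_le.2 h.le]
    have : i.val < j.val := h
    omega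
  · subst h
    rw [Fin.coe_sub_iff_le.2 le_rfl]
    omega
  · rw [Fin.coe_sub_iff_lt.2 h, Fin.coe_sub_iff_le.2 h.le]
    have : j.val < i.val := h
    omega

lemma indCycle_of_fun {W : Type*} {H : SimpleGraph W} {L : ℕ} (hL : 3 ≤ L) (q : ℕ → W)
    (hinj : ∀ i j, i < j → j < L → q i ≠ q j)
    (hadj : ∀ i j, i < j → j < L → (H.Adj (q i) (q j) ↔ (i + 1 = j ∨ (i = 0 ∧ j + 1 = L)))) :
    cycleGraph L ⊴ H := by
  refine ⟨⟨⟨fun i => q i.val, ?_⟩, ?_⟩⟩
  · intro i j h
    rcases lt_trichotomy i j with h' | h' | h'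
    · exact absurd h (hinj _ _ h' j.isLt)
    · exact h'
    · exact absurd h.symm (hinj _ _ h' i.isLt)
  · intro i j
    rw [cycleGraph_adj_iff hL]
    simp only [Function.Embedding.coeFn_mk]
    have hi := i.isLt
    have hj := j.isLt
    rcases lt_trichotomy i j with h' | h' | h'
    · have h'' : i.val < j.val := h'
      rw [hadj _ _ h' hj]; omega
    · subst h'
      simp only [SimpleGraph.irrefl, false_iff]
      omega
    · have h'' : j.val < i.val := h'
      rw [H.adj_comm, hadj _ _ h' hi]; omega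

/-- a walk from `s` to `t` of length `n` with interior in `A` -/
def Via {W : Type*} (H : SimpleGraph W) (A : Finset W) (s t : W) (n : ℕ) (p : ℕ → W) : Prop :=
  p 0 = s ∧ p n = t ∧ (∀ i, i < n → H.Adj (p i) (p (i + 1))) ∧ ∀ i, 0 < i → i < n → p i ∈ A

lemma Via.snoc {W : Type*} {H : SimpleGraph W} {A : Finset W} {s t u : W} {n : ℕ} {p : ℕ → W}
    (h : Via H A s t n p) (ht : 0 < n → t ∈ A) (htu : H.Adj t u) :
    Via H A s u (n + 1) (fun i => if i ≤ n then p i else u) := by
  obtain ⟨h0, hn, hadj, hA⟩ := h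
  refine ⟨by simp [h0], by simp, fun i hi => ?_, fun i hi hi' => ?_⟩
  · by_cases h1 : i < n
    · simp only [h1.le, if_true, show i + 1 ≤ n from h1]
      exact hadj i h1
    · have : i = n := by omega
      subst this
      simp [hn, htu]
  · have h1 : i ≤ n := by omega
    simp only [h1, if_true]
    by_cases h2 : i < n
    · exact hA i hi h2
    · have : i = n := by omega
      subst this
      rw [hn]; exact ht hi

lemma Via.shortcut {W : Type*} {H : SimpleGraph W} {A : Finset W} {s t : W} {n : ℕ} {p : ℕ → W}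
    (h : Via H A s t n p) {i j : ℕ} (hij : i + 1 < j) (hj : j ≤ n) (hadj' : H.Adj (p i) (p j)) :
    Via H A s t (n - (j - i - 1)) (fun k => if k ≤ i then p k else p (k + (j - i - 1))) := by
  obtain ⟨h0, hn, hadj, hA⟩ := h
  refine ⟨by simp [h0], ?_, fun k hk => ?_, fun k hk hk' => ?_⟩
  · have h1 : ¬ (n - (j - i - 1) ≤ i) := by omega
    simp only [h1, if_false]
    rw [show n - (j - i - 1) + (j - i - 1) = n by omega, hn]
  · rcases lt_trichotomy k i with h1 | h1 | h1
    · simp only [h1.le, if_true, show k + 1 ≤ i from h1]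
      exact hadj k (by omega)
    · subst h1
      simp only [le_refl, if_true, show ¬ (k + 1 ≤ k) by omega, if_false]
      rw [show k + 1 + (j - k - 1) = j by omega]
      exact hadj'
    · simp only [show ¬ (k ≤ i) by omega, show ¬ (k + 1 ≤ i) by omega, if_false]
      rw [show k + 1 + (j - i - 1) = k + (j - i - 1) + 1 by omega]
      exact hadj _ (by omega)
  · by_cases h1 : k ≤ i
    · simp only [h1, if_true]
      exact hA k hk (by omega)
    · simp only [h1, if_false]
      exact hA _ (by omega) (by omega)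

/-- connectivity inside a finite vertex set -/
def ConnIn {W : Type*} (H : SimpleGraph W) (A : Finset W) : Prop :=
  ∀ a ∈ A, ∀ a' ∈ A, Relation.ReflTransGen (fun u v => H.Adj u v ∧ u ∈ A ∧ v ∈ A) a a'

lemma exists_via {W : Type*} {H : SimpleGraph W} {A : Finset W} (hA : ConnIn H A) {s t a a' : W}
    (ha : a ∈ A) (ha' : a' ∈ A) (hs : H.Adj s a) (ht : H.Adj a' t) :
    ∃ n p, Via H A s t n p := by
  have h1 : ∀ x, Relation.ReflTransGen (fun u v => H.Adj u v ∧ u ∈ A ∧ v ∈ A) a x →
      ∃ n p, Via H A s x n p := by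
    intro x hx
    induction hx with
    | refl =>
      have h0 : Via H A s s 0 (fun _ => s) := ⟨rfl, rfl, by omega, by omega⟩
      exact ⟨_, _, h0.snoc (by omega) hs⟩
    | tail _ huv ih =>
      obtain ⟨n, p, hp⟩ := ih
      exact ⟨_, _, hp.snoc (fun _ => huv.2.1) huv.1⟩
  obtain ⟨n, p, hp⟩ := h1 a' (hA a ha a' ha')
  exact ⟨_, _, hp.snoc (fun _ => ha') ht⟩

lemma ConnIn.insert {W : Type*} [DecidableEq W] {H : SimpleGraph W} {A : Finset W}
    (hA : ConnIn H A) {s a : W} (ha : a ∈ A) (hs : H.Adj s a) : ConnIn H (insert s A) := by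
  have hmono : ∀ x y, Relation.ReflTransGen (fun u v => H.Adj u v ∧ u ∈ A ∧ v ∈ A) x y →
      Relation.ReflTransGen (fun u v => H.Adj u v ∧ u ∈ Insert.insert s A ∧
        v ∈ Insert.insert s A) x y := by
    intro x y h
    induction h with
    | refl => exact .refl
    | tail _ huv ih =>
      exact ih.tail ⟨huv.1, Finset.mem_insert_of_mem huv.2.1, Finset.mem_insert_of_mem huv.2.2⟩
  intro x hx y hy
  rcases Finset.mem_insert.1 hx with rfl | hx' <;> rcases Finset.mem_insert.1 hy with rfl | hy'
  · exact .refl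
  · exact .head ⟨hs, hx, Finset.mem_insert_of_mem ha⟩ (hmono _ _ (hA a ha y hy'))
  · exact .tail (hmono _ _ (hA x hx' a ha)) ⟨hs.symm, Finset.mem_insert_of_mem ha, hy⟩
  · exact hmono _ _ (hA x hx' y hy')

lemma adj_of_chordal {W : Type*} {H : SimpleGraph W} (hH : NoHole H) {A : Finset W}
    (hA : ConnIn H A) {s t a a' b : W} (ha : a ∈ A) (ha' : a' ∈ A) (hs : H.Adj s a)
    (ht : H.Adj a' t) (htA : t ∉ A) (hst : s ≠ t) (hbs : H.Adj s b) (hbt : H.Adj t b)
    (hbA : b ∉ A) (hb : ∀ x ∈ A, ¬ H.Adj x b) : H.Adj s t := by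
  classical
  by_contra hnadj
  have hex : ∃ n, ∃ p, Via H A s t n p := exists_via hA ha ha' hs ht
  obtain ⟨p, hp⟩ := Nat.find_spec hex
  set n := Nat.find hex with hn
  have hmin : ∀ k, k < n → ∀ p', ¬ Via H A s t k p' := fun k hk p' h =>
    Nat.find_min hex hk ⟨p', h⟩
  have hchord : ∀ i j, i + 1 < j → j ≤ n → ¬ H.Adj (p i) (p j) := fun i j hij hj h =>
    hmin _ (by omega) _ (hp.shortcut hij hj h)
  obtain ⟨h0, hn', hadj, hin⟩ := hp
  have hn2 : 2 ≤ n := by
    by_contra hlt
    have : n = 0 ∨ n = 1 := by omega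
    rcases this with h | h
    · rw [h] at hn'; exact hst (h0.symm.trans hn')
    · have := hadj 0 (by omega)
      rw [h] at hn'
      rw [h0, zero_add, hn'] at this
      exact hnadj this
  have hinj : ∀ i j, i < j → j ≤ n → p i ≠ p j := by
    intro i j hij hj h
    by_cases hjn : j < n
    · have := hadj j hjn
      rw [← h] at this
      exact hchord i (j + 1) (by omega) hjn this
    · have hjn' : j = n := by omega
      rw [hjn', hn'] at h
      by_cases hi : i = 0
      · rw [hi, h0] at h; exact hst h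
      · exact htA (h ▸ hin i (by omega) (by omega))
  refine hH (n + 2) (by omega) (indCycle_of_fun (by omega) (fun i => if i ≤ n then p i else b)
    ?_ ?_)
  · intro i j hij hj
    have hi : i ≤ n := by omega
    by_cases hjn : j ≤ n
    · simp only [hi, hjn, if_true]; exact hinj i j hij hjn
    · simp only [hi, hjn, if_true, if_false]
      intro h
      by_cases hi0 : i = 0
      · rw [hi0, h0] at h; exact hbs.ne h
      · by_cases hin' : i = n
        · rw [hin', hn'] at h; exact hbt.ne h
        · exact hbA (h ▸ hin i (by omega) (by omega))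
  · intro i j hij hj
    have hi : i ≤ n := by omega
    by_cases hjn : j ≤ n
    · simp only [hi, hjn, if_true]
      constructor
      · intro h
        by_contra hcon
        exact hchord i j (by omega) hjn h
      · rintro (h | h)
        · rw [← h]; exact hadj i (by omega)
        · omega
    · simp only [hi, hjn, if_true, if_false]
      constructor
      · intro h
        by_contra hcon
        exact hb _ (hin i (by omega) (by omega)) h
      · rintro (h | h)
        · rw [show i = n by omega, hn']; exact hbt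
        · rw [h.1, h0]; exact hbs

theorem NoHole.simplicial {W : Type*} {H : SimpleGraph W} (hH : NoHole H) :
    Simplicial H := by
  classical
  intro S
  induction S using Finset.strongInduction with
  | H S ih =>
  intro hne
  by_cases hcl : ∀ x ∈ S, ∀ y ∈ S, x ≠ y → H.Adj x y
  · obtain ⟨v, hv⟩ := hne
    exact ⟨v, hv, fun x hx y hy _ _ hxy => hcl x hx y hy hxy⟩
  push Not at hcl
  obtain ⟨x₀, hx₀, y₀, hy₀, hne₀, hnadj₀⟩ := hcl
  let good : Finset W → Prop := fun A => A.Nonempty ∧ ConnIn H A ∧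
    ∃ b ∈ S, b ∉ A ∧ ∀ x ∈ A, ¬ H.Adj x b
  have hgood : (S.powerset.filter good).Nonempty := by
    refine ⟨{x₀}, Finset.mem_filter.2 ⟨by simpa using hx₀, by simp, ?_, y₀, hy₀, ?_, ?_⟩⟩
    · intro a ha a' ha'
      rw [Finset.mem_singleton.1 ha, Finset.mem_singleton.1 ha']
    · simpa using hne₀.symm
    · simpa using hnadj₀
  obtain ⟨A, hA, hmax⟩ := (S.powerset.filter good).exists_max_image Finset.card hgood
  obtain ⟨hAS, hAne, hconn, b₀, hb₀S, hb₀A, hb₀⟩ := Finset.mem_filter.1 hA
  rw [Finset.mem_powerset] at hAS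
  let B : Finset W := S.filter (fun b => b ∉ A ∧ ∀ x ∈ A, ¬ H.Adj x b)
  have hBS : B ⊂ S := by
    obtain ⟨a, ha⟩ := hAne
    refine Finset.ssubset_iff_of_subset (Finset.filter_subset _ _) |>.2 ⟨a, hAS ha, ?_⟩
    intro h
    exact (Finset.mem_filter.1 h).2.1 ha
  have hfull : ∀ s ∈ S, s ∉ A → ∀ a ∈ A, H.Adj s a → ∀ b ∈ B, H.Adj s b := by
    intro s hs hsA a ha hsa b hb
    by_contra hsb
    obtain ⟨hbS, hbA, hb'⟩ := Finset.mem_filter.1 hb
    have hmem : insert s A ∈ S.powerset.filter good := by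
      refine Finset.mem_filter.2 ⟨?_, by simp, hconn.insert ha hsa, b, hbS, ?_, ?_⟩
      · rw [Finset.mem_powerset]; exact Finset.insert_subset hs hAS
      · intro h
        rcases Finset.mem_insert.1 h with rfl | h
        · exact hb' a ha hsa.symm
        · exact hbA h
      · intro x hx
        rcases Finset.mem_insert.1 hx with rfl | hx
        · exact hsb
        · exact hb' x hx
    have := hmax _ hmem
    rw [Finset.card_insert_of_notMem hsA] at this
    omega
  obtain ⟨v, hvB, hv⟩ := ih B hBS ⟨b₀, Finset.mem_filter.2 ⟨hb₀S, hb₀A, hb₀⟩⟩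
  obtain ⟨hvS, hvA, hv'⟩ := Finset.mem_filter.1 hvB
  have hcase : ∀ x ∈ S, H.Adj v x → x ∉ A ∧ (x ∈ B ∨ ∃ a ∈ A, H.Adj x a) := by
    intro x hx hvx
    have hxA : x ∉ A := fun h => hv' x h hvx.symm
    refine ⟨hxA, ?_⟩
    by_cases h : ∃ a ∈ A, H.Adj x a
    · exact Or.inr h
    · push Not at h
      exact Or.inl (Finset.mem_filter.2 ⟨hx, hxA, fun a ha h' => h a ha h'.symm⟩)
  refine ⟨v, hvS, fun x hx y hy hvx hvy hxy => ?_⟩
  obtain ⟨hxA, hx'⟩ := hcase x hx hvx
  obtain ⟨hyA, hy'⟩ := hcase y hy hvy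
  rcases hx' with hxB | ⟨a, ha, hxa⟩ <;> rcases hy' with hyB | ⟨a', ha', hya⟩
  · exact hv x hxB y hyB hvx hvy hxy
  · exact (hfull y hy hyA a' ha' hya x hxB).symm
  · exact hfull x hx hxA a ha hxa y hyB
  · exact adj_of_chordal hH hconn ha ha' hxa hya.symm hyA hxy hvx.symm hvy.symm hvA hv'

/-- A perfect elimination ordering. -/
structure PEO {W : Type*} (H : SimpleGraph W) (f : W → ℕ) : Prop where
  inj : Function.Injective f
  clique : ∀ v a b, H.Adj v a → H.Adj v b → f v < f a → f v < f b → a = b ∨ H.Adj a b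

theorem Simplicial.exists_peo {W : Type*} [Fintype W] {H : SimpleGraph W} (hS : Simplicial H) :
    ∃ f, PEO H f := by
  classical
  have key : ∀ S : Finset W, ∃ f : W → ℕ, Set.InjOn f S ∧ ∀ v ∈ S, ∀ a ∈ S, ∀ b ∈ S,
      H.Adj v a → H.Adj v b → f v < f a → f v < f b → a = b ∨ H.Adj a b := by
    intro S
    induction S using Finset.strongInduction with
    | H S ih =>
    rcases S.eq_empty_or_nonempty with rfl | hne
    · exact ⟨fun _ => 0, by simp, by simp⟩
    obtain ⟨v, hv, hsimp⟩ := hS S hne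
    obtain ⟨f, hf, hc⟩ := ih (S.erase v) (Finset.erase_ssubset hv)
    refine ⟨fun x => if x = v then 0 else f x + 1, ?_, ?_⟩
    · intro x hx y hy hxy
      by_cases h1 : x = v <;> by_cases h2 : y = v <;> simp only [h1, h2, if_true, if_false] at hxy
      · rw [h1, h2]
      · omega
      · omega
      · exact hf (by simpa using ⟨hx, h1⟩) (by simpa using ⟨hy, h2⟩) (by omega)
    · intro w hw a ha b hb hwa hwb h1 h2
      by_cases hwv : w = v
      · subst hwv
        by_cases hab : a = b
        · exact Or.inl hab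
        · exact Or.inr (hsimp a ha b hb hwa hwb hab)
      · have hav : a ≠ v := by
          rintro rfl
          simp at h1
        have hbv : b ≠ v := by
          rintro rfl
          simp at h2
        simp only [hwv, hav, hbv, if_false] at h1 h2
        exact hc w (Finset.mem_erase.2 ⟨hwv, hw⟩) a (Finset.mem_erase.2 ⟨hav, ha⟩) b
          (Finset.mem_erase.2 ⟨hbv, hb⟩) hwa hwb (by omega) (by omega)
  obtain ⟨f, hf, hc⟩ := key Finset.univ
  exact ⟨f, fun x y h => hf (by simp) (by simp) h,
    fun v a b => hc v (by simp) a (by simp) b (by simp)⟩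

theorem NoHole.exists_peo {W : Type*} [Fintype W] {H : SimpleGraph W} (hH : NoHole H) :
    ∃ f, PEO H f := hH.simplicial.exists_peo

/-- The ends of a walk through earlier vertices are equal or adjacent. -/
theorem PEO.low_walk {W : Type*} {H : SimpleGraph W} {f : W → ℕ} (hf : PEO H f) (t : ℕ) :
    ∀ x y c, t ≤ f x → t ≤ f y →
      Relation.ReflTransGen (fun u v => H.Adj u v ∧ f v < t) x c → H.Adj c y →
      x = y ∨ H.Adj x y := by
  induction t with
  | zero =>
    intro x y c _ _ h hc
    cases h with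
    | refl => exact Or.inr hc
    | tail _ h => omega
  | succ t ih =>
    intro x y c hx hy h hc
    have inv : Relation.ReflTransGen (fun u v => H.Adj u v ∧ f v < t) x c ∨
        ∃ v, f v = t ∧ H.Adj x v ∧ Relation.ReflTransGen (fun u v => H.Adj u v ∧ f v < t) v c := by
      clear hc
      induction h with
      | refl => exact Or.inl .refl
      | @tail c' c _ h ih' =>
        by_cases hlt : f c < t
        · rcases ih' with h' | ⟨v, hv, hxv, h'⟩
          · exact Or.inl (h'.tail ⟨h.1, hlt⟩)
          · exact Or.inr ⟨v, hv, hxv, h'.tail ⟨h.1, hlt⟩⟩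
        · have hct : f c = t := by have := h.2; omega
          rcases ih' with h' | ⟨v, hv, hxv, -⟩
          · rcases ih x c c' (by omega) (by omega) h' h.1 with h'' | h''
            · subst h''; omega
            · exact Or.inr ⟨c, hct, h'', .refl⟩
          · have : v = c := hf.inj (by omega)
            subst this
            exact Or.inr ⟨v, hv, hxv, .refl⟩
    rcases inv with h' | ⟨v, hv, hxv, h'⟩
    · exact ih x y c (by omega) (by omega) h' hc
    · rcases ih v y c (by omega) (by omega) h' hc with h'' | h''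
      · subst h''; omega
      · exact hf.clique v x y hxv.symm h'' (by omega) (by omega)

/-- Connectivity inside a vertex set. -/
def Conn {W : Type*} (H : SimpleGraph W) (S : Set W) : W → W → Prop :=
  Relation.ReflTransGen (fun u v => H.Adj u v ∧ u ∈ S ∧ v ∈ S)

theorem PEO.later_nbr {W : Type*} {H : SimpleGraph W} {f : W → ℕ} (hf : PEO H f) {S : Set W}
    {a b x x' : W} (ha : a ∉ S) (hx : x ∈ S) (hax : H.Adj a x) (hc : Conn H S x x')
    (hb : H.Adj x' b) (hab : f a ≤ f b) :
    (a = b ∨ H.Adj a b) ∨ ∃ s ∈ S, f a < f s ∧ H.Adj a s := by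
  have step : ∀ c c', c' ∈ S → H.Adj c c' →
      Relation.ReflTransGen (fun u v => H.Adj u v ∧ f v < f a) a c →
      Relation.ReflTransGen (fun u v => H.Adj u v ∧ f v < f a) a c' ∨
        ∃ s ∈ S, f a < f s ∧ H.Adj a s := by
    intro c c' hc' hcc' h
    rcases lt_trichotomy (f c') (f a) with h1 | h1 | h1
    · exact Or.inl (h.tail ⟨hcc', h1⟩)
    · exact absurd (hf.inj h1 ▸ hc') ha
    · rcases hf.low_walk (f a) a c' c le_rfl h1.le h hcc' with h2 | h2
      · exact absurd (h2 ▸ hc') ha
      · exact Or.inr ⟨c', hc', h1, h2⟩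
  have inv : Relation.ReflTransGen (fun u v => H.Adj u v ∧ f v < f a) a x' ∨
      ∃ s ∈ S, f a < f s ∧ H.Adj a s := by
    clear hb
    induction hc with
    | refl => exact step a x hx hax .refl
    | tail _ h ih =>
      rcases ih with h' | h'
      · exact step _ _ h.2.2 h.1 h'
      · exact Or.inr h'
  rcases inv with h | h
  · exact Or.inl (hf.low_walk (f a) a b x' le_rfl hab h hb)
  · exact Or.inr h

theorem Conn.symm {W : Type*} {H : SimpleGraph W} {S : Set W} {x y : W} (h : Conn H S x y) :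
    Conn H S y x := by
  induction h with
  | refl => exact .refl
  | tail _ h ih => exact Relation.ReflTransGen.head ⟨h.1.symm, h.2.2, h.2.1⟩ ih

theorem Conn.mem {W : Type*} {H : SimpleGraph W} {S : Set W} {x y : W} (h : Conn H S x y)
    (hx : x ∈ S) : y ∈ S := by
  cases h with
  | refl => exact hx
  | tail _ h => exact h.2.2

/-- Two vertices joined through each of two mutually remote sets are equal or adjacent. -/
theorem PEO.two_paths {W : Type*} {H : SimpleGraph W} {f : W → ℕ} (hf : PEO H f) {A Y : Set W}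
    (hAY : ∀ x ∈ A, ∀ y ∈ Y, x ≠ y ∧ ¬ H.Adj x y) {a b x x' y y' : W}
    (haA : a ∉ A) (haY : a ∉ Y) (hbA : b ∉ A) (hbY : b ∉ Y)
    (hx : x ∈ A) (hax : H.Adj a x) (hxx : Conn H A x x') (hxb : H.Adj x' b)
    (hy : y ∈ Y) (hay : H.Adj a y) (hyy : Conn H Y y y') (hyb : H.Adj y' b) :
    a = b ∨ H.Adj a b := by
  rcases le_total (f a) (f b) with h | h
  · rcases hf.later_nbr haA hx hax hxx hxb h with h1 | ⟨s, hs, h1, h2⟩
    · exact h1
    rcases hf.later_nbr haY hy hay hyy hyb h with h1 | ⟨s', hs', h1', h2'⟩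
    · exact h1
    rcases hf.clique a s s' h2 h2' h1 h1' with h3 | h3
    · exact absurd h3 (hAY s hs s' hs').1
    · exact absurd h3 (hAY s hs s' hs').2
  · have fin : b = a ∨ H.Adj b a → a = b ∨ H.Adj a b := fun h =>
      h.imp Eq.symm SimpleGraph.Adj.symm
    rcases hf.later_nbr hbA (hxx.mem hx) hxb.symm hxx.symm hax.symm h with h1 | ⟨s, hs, h1, h2⟩
    · exact fin h1
    rcases hf.later_nbr hbY (hyy.mem hy) hyb.symm hyy.symm hay.symm h with h1 | ⟨s', hs', h1', h2'⟩
    · exact fin h1
    rcases hf.clique b s s' h2 h2' h1 h1' with h3 | h3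
    · exact absurd h3 (hAY s hs s' hs').1
    · exact absurd h3 (hAY s hs s' hs').2

end Pool.Agent.Lib.Chordal
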